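import Pool.Agent.H454R3.Roy

/-!
# Roy halfgraph-above degrees versus submetrizable spaces
-/

set_option autoImplicit false

namespace Pool.Agent.Results.MP_b6d12e_lc.RoySubmetrizable

open Pool.Agent.H454R3.EDeg Pool.Agent.H454R3.Roy TopologicalSpace
open Pool.Agent.Helper446

universe u

/-! ### The definition used in the statement -/

/-- The e-degree of `S` is Roy halfgraph-above by the very form of `S`. -/
def IsRoy (S : Set ℕ) : Prop :=
  ∃ (Y : Set ℕ) (f : ℕ → Tl), CEIn Y (HalfGraph f) ∧
    (∃ g : ℕ →. ℕ, PartIn Y g ∧ ∀ n k, f n = Tl.fin k → ∃ b ∈ g n, k < b) ∧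
    S = join (join Y Yᶜ) (HalfGraphPlus f)

/-! ### The codes are of this form -/

open Pt

theorem cdiv2 : Computable fun z : ℕ => z / 2 :=
  Primrec.nat_div.to_comp.comp Computable.id (Computable.const 2)

theorem cmod2 : Computable fun z : ℕ => z % 2 :=
  Primrec.nat_mod.to_comp.comp Computable.id (Computable.const 2)

/-- Search for the least `m` with `q n m ∈ X`. -/
theorem partIn_search {X : Set ℕ} {q : ℕ → ℕ → ℕ} (hq : Computable₂ q) {h : ℕ → ℕ}
    (hh : Computable h) : ∃ g : ℕ →. ℕ, PartIn X g ∧
      ∀ n m, q n m ∈ X → (∀ k < m, q n k ∉ X) → h m ∈ g n := by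
  have hq' : Computable fun p : ℕ => q p.unpair.1 p.unpair.2 :=
    Computable₂.comp (f := q) hq (g := fun p : ℕ => p.unpair.1)
      (h := fun p : ℕ => p.unpair.2) (by fun_prop) (by fun_prop)
  have h1 : Oracle.TotIn X fun p : ℕ => 1 - Defs.chiN X (q p.unpair.1 p.unpair.2) :=
    (Oracle.TotIn.of_comp (A := X) (f := fun n : ℕ => 1 - n) (by fun_prop)).comp
      (Oracle.TotIn.chi.comp (Oracle.TotIn.of_comp hq'))
  have h2 := Nat.RecursiveIn.rfind h1
  have h3 := Nat.RecursiveIn.comp (Oracle.TotIn.of_comp (A := X) hh) h2
  obtain ⟨g, hg, hg'⟩ : ∃ g : ℕ →. ℕ, Nat.RecursiveIn {Defs.chi X} g ∧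
      ∀ n m, q n m ∈ X → (∀ k < m, q n k ∉ X) → h m ∈ g n := by
    refine ⟨_, h3, fun n m hm hk => ?_⟩
    refine Part.mem_bind_iff.2 ⟨m, Nat.mem_rfind.2 ⟨?_, ?_⟩, Part.mem_some _⟩
    · simp only [Part.map_eq_map, Part.map_some, Part.mem_some_iff, Nat.unpair_pair]
      rw [Oracle.chiN_eq_one.2 hm]; simp
    · intro k hk'
      simp only [Part.map_eq_map, Part.map_some, Part.mem_some_iff, Nat.unpair_pair]
      rw [Oracle.chiN_eq_zero.2 (hk k hk')]; simp
  refine ⟨g, ?_, hg'⟩
  unfold PartIn
  rw [chi_eq, RecursiveIn.iff_nat]
  exact hg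

theorem isRoy_code (w : ℕ → Pt) : IsRoy (code w) := by
  refine ⟨ZZ w, fun n => val (w n), ?_, ?_, rfl⟩
  · refine ceIn_of_proj (q := fun z t =>
      if z % 2 = 0 then Nat.pair (z / 2).unpair.1 (Nat.pair 1 (Nat.pair (z / 2).unpair.2 t))
      else if (z / 2).unpair.2 = 0 then Nat.pair (z / 2).unpair.1 (Nat.pair 0 t)
      else Nat.pair (z / 2).unpair.1 (Nat.pair ((z / 2).unpair.2 + 1) t)) ?_ ?_
    · have h1 : Computable fun z : ℕ × ℕ => (z.1 / 2).unpair := by
        exact Computable.unpair.comp (cdiv2.comp Computable.fst)
      have h2 : Computable fun z : ℕ × ℕ => (z.1 / 2).unpair.1 := Computable.fst.comp h1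
      have h3 : Computable fun z : ℕ × ℕ => (z.1 / 2).unpair.2 := Computable.snd.comp h1
      refine RE.cite (α := ℕ × ℕ) (RE.cp_eq (cmod2.comp Computable.fst) (Computable.const 0)) ?_ ?_
      · fun_prop
      · exact RE.cite (RE.cp_eq h3 (Computable.const 0)) (by fun_prop) (by fun_prop)
    · intro z
      rcases Nat.even_or_odd' z with ⟨p, rfl | rfl⟩
      · have e1 : 2 * p % 2 = 0 := by omega
        have e2 : 2 * p / 2 = p := by omega
        simp only [e1, if_true, e2, ZZ, Set.mem_ofPred_eq, Nat.unpair_pair]
        have e3 : p = Nat.pair p.unpair.1 p.unpair.2 := (Nat.pair_unpair p).symm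
        constructor
        · rintro (⟨n, m, h, h1⟩ | ⟨n, m, h, h1⟩)
          · have h2 : p = Nat.pair n m := by omega
            rw [h2, Nat.unpair_pair]
            dsimp only at h1 ⊢
            rcases hw : w n with b | ⟨s, c, rs, ot⟩
            · rw [hw] at h1; cases b <;> simp [val] at h1
            · rw [hw] at h1
              rcases ot with _ | t
              · simp only [val, Tl.fin.injEq] at h1; omega
              · simp only [val, Tl.fin.injEq] at h1
                refine ⟨t, Or.inr (Or.inl ⟨t, rfl, ?_⟩)⟩
                have : rs.length = m := by omega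
                rw [this]
          · omega
        · rintro ⟨t, ht⟩
          refine Or.inl ⟨p.unpair.1, p.unpair.2, by rw [← e3], ?_⟩
          rcases hw : w p.unpair.1 with b | ⟨s, c, rs, ot⟩
          · rw [hw] at ht; exact ht.elim
          · rw [hw] at ht
            rcases ht with h | ⟨t', h, h'⟩ | ⟨j, r, h, h'⟩
            · have := (Nat.pair_eq_pair.1 h).1; omega
            · have h3 := (Nat.pair_eq_pair.1 (Nat.pair_eq_pair.1 h').2).1
              show val (w p.unpair.1) = _
              rw [hw, h, h3]
              rfl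
            · have := (Nat.pair_eq_pair.1 h').1; omega
      · have e1 : ¬ (2 * p + 1) % 2 = 0 := by omega
        have e2 : (2 * p + 1) / 2 = p := by omega
        simp only [e1, if_false, e2]
        have e3 : p = Nat.pair p.unpair.1 p.unpair.2 := (Nat.pair_unpair p).symm
        constructor
        · rintro (⟨n, m, h, h1⟩ | ⟨n, m, h, k, h1, h1'⟩)
          · omega
          · have h2 : p = Nat.pair n m := by omega
            rw [h2, Nat.unpair_pair]
            dsimp only at h1 ⊢
            rcases hw : w n with b | ⟨s, c, rs, ot⟩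
            · rw [hw] at h1; cases b <;> simp [val] at h1
            · rcases Nat.eq_zero_or_pos m with hm | hm
              · refine ⟨Nat.pair (rs.length + c) s, ?_⟩
                rw [if_pos hm]
                simp only [ZZ, Set.mem_ofPred_eq, Nat.unpair_pair, hw]
                exact Or.inl rfl
              · have hlen : m ≤ rs.length := by
                  rw [hw] at h1
                  rcases ot with _ | t <;> simp only [val, Tl.fin.injEq] at h1 <;> omega
                have hlt : m - 1 < rs.length := by omega
                refine ⟨rs[m - 1], ?_⟩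
                rw [if_neg (by omega)]
                simp only [ZZ, Set.mem_ofPred_eq, Nat.unpair_pair, hw]
                refine Or.inr (Or.inr ⟨m - 1, rs[m - 1], List.getElem?_eq_getElem hlt, ?_⟩)
                congr 1
                omega
        · rintro ⟨t, ht⟩
          refine Or.inr ⟨p.unpair.1, p.unpair.2, by rw [← e3], ?_⟩
          by_cases hm : p.unpair.2 = 0
          · rw [if_pos hm] at ht
            simp only [ZZ, Set.mem_ofPred_eq, Nat.unpair_pair] at ht
            rcases hw : w p.unpair.1 with b | ⟨s, c, rs, ot⟩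
            · rw [hw] at ht; exact ht.elim
            · dsimp only
              rw [hw]
              rcases ot with _ | t
              · exact ⟨_, rfl, by omega⟩
              · exact ⟨_, rfl, by omega⟩
          · rw [if_neg hm] at ht
            simp only [ZZ, Set.mem_ofPred_eq, Nat.unpair_pair] at ht
            rcases hw : w p.unpair.1 with b | ⟨s, c, rs, ot⟩
            · rw [hw] at ht; exact ht.elim
            · rw [hw] at ht
              have hlen : p.unpair.2 ≤ rs.length := by
                rcases ht with h | ⟨t', h, h'⟩ | ⟨j, r, h, h'⟩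
                · have := (Nat.pair_eq_pair.1 h).1; omega
                · have := (Nat.pair_eq_pair.1 h').1; omega
                · have h3 := (Nat.pair_eq_pair.1 h').1
                  by_contra hc
                  rw [List.getElem?_eq_none (by omega)] at h
                  cases h
              dsimp only
              rw [hw]
              rcases ot with _ | t
              · exact ⟨_, rfl, by omega⟩
              · exact ⟨_, rfl, by omega⟩
  · obtain ⟨g, hg, hg'⟩ := partIn_search (X := ZZ w) (q := fun n m => Nat.pair n (Nat.pair 0 m))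
      (h := fun m => 2 * m.unpair.1 + 2)
      (by show Computable fun z : ℕ × ℕ => Nat.pair z.1 (Nat.pair 0 z.2); fun_prop)
      (by fun_prop)
    refine ⟨g, hg, fun n k hk => ?_⟩
    dsimp only at hk
    rcases hw : w n with b | ⟨s, c, rs, ot⟩
    · rw [hw] at hk; cases b <;> simp [val] at hk
    · have hev : ∀ m, Nat.pair n (Nat.pair 0 m) ∈ ZZ w ↔ m = Nat.pair (rs.length + c) s := by
        intro m
        simp only [ZZ, Set.mem_ofPred_eq, Nat.unpair_pair, hw]
        constructor
        · rintro (h | ⟨t', h, h'⟩ | ⟨j, r, h, h'⟩)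
          · exact (Nat.pair_eq_pair.1 h).2
          · have := (Nat.pair_eq_pair.1 h').1; omega
          · have := (Nat.pair_eq_pair.1 h').1; omega
        · rintro rfl
          exact Or.inl rfl
      refine ⟨_, hg' n (Nat.pair (rs.length + c) s) ((hev _).2 rfl) ?_, ?_⟩
      · intro m hm h
        have := (hev m).1 h
        omega
      · rw [hw] at hk
        rw [Nat.unpair_pair]
        rcases ot with _ | t <;> simp only [val, Tl.fin.injEq] at hk <;> omega

/-- **Answer to Q1 (positive).** For every represented submetrizable space `Y` there is a Roy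
halfgraph-above e-degree which is not a `Y`-degree. -/
theorem result : ∀ (Y : Type u) [TopologicalSpace Y], Submetrizable Y → ∀ U : ℕ → Set Y,
    IsTopologicalBasis (Set.range U) →
    ∃ S : Set ℕ, IsRoy S ∧ ∀ y : Y, ¬ EEqv (Nbase U y) S := by
  intro Y _ hY U hU
  obtain ⟨w, hw⟩ := key Y hY U hU
  exact ⟨code w, isRoy_code w, hw⟩

end Pool.Agent.Results.MP_b6d12e_lc.RoySubmetrizable
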